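import Pool.Agent.helper27.PC2.Stmt2
import Pool.Agent.helper27.PC2.REPQ

/-!
# PC project, module DZ: the twisted traces vanish if there is a negative cycle
-/

set_option autoImplicit false

namespace Pool.Agent.helper27.PC

open Finset Module

section alg

variable {R : Type*} [Ring R] {n : ℕ} {t : ℕ → R}

/-- the braid relations of type `B_n` -/
structure DZ_Br (n : ℕ) (t : ℕ → R) : Prop where
  braid : ∀ i, 1 ≤ i → i + 1 < n → t i * t (i + 1) * t i = t (i + 1) * t i * t (i + 1)
  braid0 : 1 < n → t 0 * t 1 * t 0 * t 1 = t 1 * t 0 * t 1 * t 0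
  comm : ∀ i j, i + 1 < j → j < n → t i * t j = t j * t i

/-- Jucys-Murphy elements -/
def DZ_X (t : ℕ → R) : ℕ → R
  | 0 => t 0
  | k + 1 => t (k + 1) * DZ_X t k * t (k + 1)

theorem DZ_far (h : DZ_Br n t) (k j : ℕ) (hj : k + 1 < j) (hn : j < n) :
    Commute (DZ_X t k) (t j) := by
  induction k with
  | zero => exact h.comm 0 j hj hn
  | succ k ih =>
    have h1 : Commute (t (k + 1)) (t j) := h.comm _ _ hj hn
    exact (h1.mul_left (ih (by omega))).mul_left h1

theorem DZ_comm (h : DZ_Br n t) (k i : ℕ) (hi : i < k) (hn : k < n) :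
    Commute (t i) (DZ_X t k) := by
  induction k generalizing i with
  | zero => omega
  | succ k ih =>
    by_cases hik : i < k
    · have h1 : Commute (t i) (t (k + 1)) := h.comm _ _ (by omega) hn
      exact (h1.mul_right (ih i hik (by omega))).mul_right h1
    · have hik' : i = k := by omega
      subst hik'
      cases i with
      | zero =>
        show t 0 * (t 1 * t 0 * t 1) = (t 1 * t 0 * t 1) * t 0
        have := h.braid0 (by omega)
        simp only [← mul_assoc] at this ⊢
        exact this
      | succ k =>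
        have hb := h.braid (k + 1) (by omega) (by omega)
        have hf : DZ_X t k * t (k + 1 + 1) = t (k + 1 + 1) * DZ_X t k :=
          DZ_far h k (k + 2) (by omega) (by omega)
        show t (k + 1) * (t (k + 1 + 1) * (t (k + 1) * DZ_X t k * t (k + 1)) * t (k + 1 + 1)) =
          (t (k + 1 + 1) * (t (k + 1) * DZ_X t k * t (k + 1)) * t (k + 1 + 1)) * t (k + 1)
        calc t (k + 1) * (t (k + 1 + 1) * (t (k + 1) * DZ_X t k * t (k + 1)) * t (k + 1 + 1))
            = (t (k + 1) * t (k + 1 + 1) * t (k + 1)) * DZ_X t k * (t (k + 1) * t (k + 1 + 1)) := by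
              simp only [mul_assoc]
          _ = (t (k + 1 + 1) * t (k + 1) * t (k + 1 + 1)) * DZ_X t k * (t (k + 1) * t (k + 1 + 1)) := by
              rw [hb]
          _ = t (k + 1 + 1) * t (k + 1) * (t (k + 1 + 1) * DZ_X t k) * (t (k + 1) * t (k + 1 + 1)) := by
              simp only [mul_assoc]
          _ = t (k + 1 + 1) * t (k + 1) * (DZ_X t k * t (k + 1 + 1)) * (t (k + 1) * t (k + 1 + 1)) := by
              rw [hf]
          _ = t (k + 1 + 1) * t (k + 1) * DZ_X t k * (t (k + 1 + 1) * t (k + 1) * t (k + 1 + 1)) := by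
              simp only [mul_assoc]
          _ = t (k + 1 + 1) * t (k + 1) * DZ_X t k * (t (k + 1) * t (k + 1 + 1) * t (k + 1)) := by
              rw [hb]
          _ = _ := by simp only [mul_assoc]

theorem DZ_desc (t : ℕ → R) (k : ℕ) :
    ((List.range (k + 1)).reverse.map t).prod * ((List.range' 1 k).map t).prod = DZ_X t k := by
  induction k with
  | zero => simp [DZ_X]
  | succ k ih =>
    rw [List.range_succ, List.reverse_append, List.reverse_singleton, List.singleton_append,
      List.map_cons, List.prod_cons, List.range'_concat, List.map_append, List.prod_append]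
    simp only [List.map_cons, List.map_nil, List.prod_cons, List.prod_nil, mul_one]
    have e : 1 + 1 * k = k + 1 := by ring
    rw [e, DZ_X, ← ih]
    simp only [mul_assoc]

theorem DZ_desc' (t : ℕ → R) (k : ℕ) :
    ((List.range' 1 k).reverse.map t).prod * ((List.range (k + 1)).map t).prod = DZ_X t k := by
  induction k with
  | zero => simp [DZ_X]
  | succ k ih =>
    rw [List.range_succ, List.map_append, List.prod_append,
      List.range'_concat, List.reverse_append, List.reverse_singleton, List.singleton_append,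
      List.map_cons, List.prod_cons]
    simp only [List.map_cons, List.map_nil, List.prod_cons, List.prod_nil, mul_one]
    have e : 1 + 1 * k = k + 1 := by ring
    rw [e, DZ_X, ← ih]
    simp only [mul_assoc]

theorem DZ_range' (k a : ℕ) (ha : 1 ≤ a) :
    List.range' 1 (k + a - 1) = List.range' 1 k ++ List.range' (k + 1) (a - 1) := by
  have : k + a - 1 = k + (a - 1) := by omega
  rw [this, ← List.range'_append_1, Nat.add_comm 1 k]

theorem DZ_list (i : ℕ) (l : List ℕ) (h : ∀ j ∈ l, Commute (t i) (t j)) :
    Commute (t i) (l.map t).prod := by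
  induction l with
  | nil => simp
  | cons j l ih =>
    rw [List.map_cons, List.prod_cons]
    exact (h j (by simp)).mul_right (ih fun j hj => h j (List.mem_cons_of_mem _ hj))

theorem DZ_tail (h : DZ_Br n t) {i k a : ℕ} (hi : i < k) (ha : 1 ≤ a) (hk : k + a ≤ n) :
    ∀ j ∈ List.range' (k + 1) (a - 1), Commute (t i) (t j) := by
  intro j hj
  rw [List.mem_range'_1] at hj
  exact h.comm _ _ (by omega) (by omega)

theorem DZ_block (h : DZ_Br n t) {i k a : ℕ} (hi : i < k) (ha : 1 ≤ a) (hk : k + a ≤ n) :
    Commute (t i) ((blockWord k a).map t).prod ∧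
      Commute (t i) ((blockWord k a).reverse.map t).prod := by
  have h1 := DZ_comm h k i hi (by omega)
  have h2 := DZ_tail h hi ha hk
  unfold blockWord
  rw [DZ_range' k a ha]
  constructor
  · rw [← List.append_assoc, List.map_append, List.prod_append, List.map_append, List.prod_append,
      DZ_desc]
    exact h1.mul_right (DZ_list i _ h2)
  · rw [List.reverse_append, List.reverse_append, List.reverse_reverse, List.append_assoc,
      List.map_append, List.prod_append, List.map_append, List.prod_append, DZ_desc']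
    refine (DZ_list i _ fun j hj => h2 j (List.mem_reverse.1 hj)).mul_right h1

theorem DZ_std (h : DZ_Br n t) {i : ℕ} (l : List ℕ) (hl : ∀ a ∈ l, 1 ≤ a) (k : ℕ) (hi : i < k)
    (hk : k + l.sum ≤ n) :
    Commute (t i) ((stdWord k l).map t).prod ∧
      Commute (t i) ((stdWord k l).reverse.map t).prod := by
  induction l generalizing k with
  | nil => simp [stdWord]
  | cons a l ih =>
    rw [List.sum_cons] at hk
    have ha := hl a (by simp)
    obtain ⟨h1, h2⟩ := DZ_block h hi ha (by omega)
    obtain ⟨h3, h4⟩ := ih (fun b hb => hl b (List.mem_cons_of_mem _ hb)) (k + a) (by omega) (by omega)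
    rw [stdWord]
    constructor
    · rw [List.map_append, List.prod_append]; exact h1.mul_right h3
    · rw [List.reverse_append, List.map_append, List.prod_append]; exact h4.mul_right h2

theorem DZ_pos (h : DZ_Br n t) {i : ℕ} (l : List ℕ) (hl : ∀ a ∈ l, 1 ≤ a) (k : ℕ) (hi : i < k)
    (hk : k + l.sum ≤ n) :
    Commute (t i) ((posWord k l).map t).prod ∧
      Commute (t i) ((posWord k l).reverse.map t).prod := by
  induction l generalizing k with
  | nil => simp [posWord]
  | cons a l ih =>
    rw [List.sum_cons] at hk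
    have ha := hl a (by simp)
    have h2 := DZ_tail h hi ha (show k + a ≤ n by omega)
    obtain ⟨h3, h4⟩ := ih (fun b hb => hl b (List.mem_cons_of_mem _ hb)) (k + a) (by omega) (by omega)
    rw [posWord]
    constructor
    · rw [List.map_append, List.prod_append]; exact (DZ_list i _ h2).mul_right h3
    · rw [List.reverse_append, List.map_append, List.prod_append]
      exact h4.mul_right (DZ_list i _ fun j hj => h2 j (List.mem_reverse.1 hj))

end alg

section braids

variable {K : Type*} [Field K] {Q v : K}

theorem DZ_rel (hv : GenQ Q v) (n m : ℕ) (S' : St) :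
    DZ_Br n (fun i => matF (paths n (vac m) S') (opQ Q v m i)) := by
  have hx := xQ_ok hv m
  have hst : ∀ i, Stab (paths n (vac m) S') (opQ Q v m i) := fun i => Stab_opQ hv m n (vac m) S' i
  refine ⟨?_, ?_, ?_⟩
  · intro i hi1 hi2
    rw [← matF_mul (hst _), ← matF_mul (hst _), ← matF_mul (hst _), ← matF_mul (hst _)]
    apply matF_congr
    intro w hw
    have hl := length_of_mem_paths hw
    obtain ⟨j, rfl⟩ : ∃ j, i = j + 1 := ⟨i - 1, by omega⟩
    obtain ⟨p, a, b, c, z, rfl, hp⟩ := exists_split₃ (i := j) (w := w) (by omega)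
    obtain ⟨h1, h2, h3⟩ := mem_split₃ hw
    exact braid_word hx hp h1 h2 h3
  · intro h1n
    rw [← matF_mul (hst _), ← matF_mul (hst _), ← matF_mul (hst _), ← matF_mul (hst _),
      ← matF_mul (hst _), ← matF_mul (hst _)]
    apply matF_congr
    intro w hw
    have hl := length_of_mem_paths hw
    obtain ⟨p, a, b, z, rfl, hp⟩ := exists_split₂ (i := 0) (w := w) (by omega)
    rw [List.length_eq_zero_iff] at hp
    subst hp
    have hab := (mem_split₂ hw).1
    have e0 : ∀ r : K, opQ Q v m 0 (Finsupp.single ([] ++ a :: b :: z) r) =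
        r • (xQ Q v m a • Finsupp.single ([] ++ a :: b :: z) 1) := by
      intro r
      have := Xop_append (x := xQ Q v m) (i := 0) (p := []) (z := b :: z) (a := a) rfl r
      rw [Finsupp.smul_single, Finsupp.smul_single, smul_eq_mul, smul_eq_mul, mul_one]
      exact this
    have e1 : opQ Q v m 1 (opQ Q v m 0 (opQ Q v m 1 (Finsupp.single ([] ++ a :: b :: z) 1))) =
        xQ Q v m b • Finsupp.single ([] ++ a :: b :: z) 1 := by
      have h := TXT_word hx (i := 0) (p := []) (z := z) rfl hab
      have h2 := Xop_append (x := xQ Q v m) (i := 1) (p := [a]) (z := z) (a := b) rfl 1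
      rw [Finsupp.smul_single, smul_eq_mul, mul_one]
      rw [one_mul] at h2
      exact h.trans h2
    simp only [Module.End.mul_apply]
    rw [e0, one_smul, e1, map_smul, map_smul, map_smul, map_smul, e1, e0, one_smul, smul_comm]
  · intro i j hij hj
    rw [← matF_mul (hst _), ← matF_mul (hst _)]
    apply matF_congr
    intro w hw
    have hl := length_of_mem_paths hw
    obtain ⟨j, rfl⟩ : ∃ k, j = k + 1 := ⟨j - 1, by omega⟩
    rw [Module.End.mul_apply, Module.End.mul_apply]
    cases i with
    | zero => exact Xop_comm_word (by omega) (by omega)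
    | succ i => exact comm_word (by omega) (by omega)

end braids

/-! ### Exchange of the components -/

theorem DZ_flipL_flipL (l : Lab) : flipL (flipL l) = l := by
  rcases l with ⟨b, k⟩; simp [flipL]

theorem DZ_flipL_inj : Function.Injective flipL := fun a b h => by
  rw [← DZ_flipL_flipL a, h, DZ_flipL_flipL]

theorem DZ_map_map (w : List Lab) : (w.map flipL).map flipL = w := by
  rw [List.map_map]
  have : flipL ∘ flipL = id := funext DZ_flipL_flipL
  rw [this, List.map_id]

theorem DZ_up (a : ℕ) (l : Lab) : flipL (up a l) = up a (flipL l) := rfl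

theorem DZ_mem_flip {S : St} {l : Lab} : l ∈ flip S ↔ flipL l ∈ S := by
  unfold flip
  rw [mem_image]
  constructor
  · rintro ⟨a, ha, rfl⟩; rwa [DZ_flipL_flipL]
  · intro h; exact ⟨_, h, DZ_flipL_flipL l⟩

theorem DZ_flip_move (a : ℕ) (S : St) (l : Lab) : flip (move a S l) = move a (flip S) (flipL l) := by
  ext y
  rw [DZ_mem_flip, mem_move, mem_move, DZ_mem_flip]
  constructor
  · rintro (h | ⟨h, h'⟩)
    · left; rw [← DZ_flipL_flipL y, h, DZ_up]
    · right; refine ⟨fun e => h ?_, h'⟩
      rw [e, DZ_flipL_flipL]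
  · rintro (h | ⟨h, h'⟩)
    · left; rw [h, DZ_up, DZ_flipL_flipL]
    · right; refine ⟨fun e => h ?_, h'⟩
      rw [← e, DZ_flipL_flipL]

theorem DZ_flip_paths {n : ℕ} {S S' : St} {w : List Lab} (h : w ∈ paths n S S') :
    w.map flipL ∈ paths n (flip S) (flip S') := by
  induction n generalizing S w with
  | zero =>
    rw [mem_paths_zero] at h ⊢
    rw [h.1, h.2]
    exact ⟨rfl, rfl⟩
  | succ n ih =>
    rw [mem_paths_succ] at h
    obtain ⟨l, z, rfl, hl, hz⟩ := h
    rw [mem_paths_succ]
    refine ⟨flipL l, z.map flipL, rfl, ?_, ?_⟩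
    · rw [mem_addable] at hl ⊢
      rw [DZ_mem_flip, DZ_mem_flip, DZ_up, DZ_flipL_flipL]
      exact hl
    · rw [← DZ_flip_move]
      exact ih hz

theorem DZ_flip_vac (m : ℕ) : flip (vac m) = vac m := by
  ext l
  rw [DZ_mem_flip]
  simp [vac, flipL]

section flips

variable {K : Type*} [Field K] {v : K} {x : Lab → K}

theorem DZ_cA (hx : ∀ l, x (flipL l) = - x l) (a b : Lab) :
    cA v x (flipL a) (flipL b) = cA v x a b := by
  unfold cA
  rw [hx, hx, neg_div_neg_eq]

theorem DZ_cB (hx : ∀ l, x (flipL l) = - x l) (a b : Lab) :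
    cB v x (flipL a) (flipL b) = cB v x a b := by
  unfold cB
  rw [DZ_cA hx]
  have : (flipL b = up 1 (flipL a)) ↔ (b = up 1 a) := by
    rw [← DZ_up]
    exact DZ_flipL_inj.eq_iff
  simp only [this]

theorem DZ_map_inj : Function.Injective (List.map flipL) := fun a b h => by
  rw [← DZ_map_map a, h, DZ_map_map]

theorem DZ_tw (hx : ∀ l, x (flipL l) = - x l) (i : ℕ) (w : List Lab) :
    tw v x i (w.map flipL) = (tw v x i w).mapDomain (List.map flipL) := by
  induction i generalizing w with
  | zero =>
    match w with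
    | [] => simp [tw]
    | [a] => simp [tw]
    | a :: b :: z =>
      simp only [List.map_cons, tw]
      rw [DZ_cA hx, DZ_cB hx, Finsupp.mapDomain_add, Finsupp.mapDomain_single,
        Finsupp.mapDomain_single]
      rfl
  | succ i ih =>
    match w with
    | [] => simp [tw]
    | a :: z =>
      simp only [List.map_cons, tw]
      rw [ih, ← Finsupp.mapDomain_comp, ← Finsupp.mapDomain_comp]
      rfl

theorem DZ_Top (hx : ∀ l, x (flipL l) = - x l) (i : ℕ) (w u : List Lab) :
    Top v x i (Finsupp.single (w.map flipL) 1) u = Top v x i (Finsupp.single w 1) (u.map flipL) := by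
  unfold Top
  rw [Finsupp.linearCombination_single, Finsupp.linearCombination_single, one_smul, one_smul,
    DZ_tw hx]
  conv_lhs => rw [← DZ_map_map u]
  rw [Finsupp.mapDomain_apply DZ_map_inj]

theorem DZ_Xop (hx : ∀ l, x (flipL l) = - x l) (i : ℕ) (w u : List Lab) :
    Xop x i (Finsupp.single (w.map flipL) 1) u = - Xop x i (Finsupp.single w 1) (u.map flipL) := by
  rw [Xop_single, Xop_single, Finsupp.single_apply, Finsupp.single_apply]
  have e : (w.map flipL = u) ↔ (w = u.map flipL) :=
    ⟨fun h => by rw [← h, DZ_map_map], fun h => by rw [h, DZ_map_map]⟩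
  by_cases h : w = u.map flipL
  · rw [if_pos h, if_pos (e.2 h), one_mul, one_mul, List.getElem?_map]
    cases w[i]? with
    | none => simp
    | some a => simp [hx]
  · rw [if_neg h, if_neg (fun h' => h (e.1 h')), neg_zero]

end flips

section main

variable {K : Type} [Field K] {v : K}

theorem DZ_xQ (v : K) (m : ℕ) (l : Lab) : xQ 1 v m (flipL l) = - xQ 1 v m l := by
  rcases l with ⟨b, k⟩
  cases b <;> simp [xQ, flipL]

/-- the matrix of the exchange of the components -/
noncomputable def DZ_J (K : Type) [Field K] (F : Finset (List Lab)) : Matrix F F K :=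
  fun w w' => if w.1 = w'.1.map flipL then 1 else 0

theorem DZ_mul_J {F : Finset (List Lab)} (hF : ∀ w ∈ F, w.map flipL ∈ F) (M : Matrix F F K)
    (w w' : F) : (M * DZ_J K F) w w' = M w ⟨w'.1.map flipL, hF _ w'.2⟩ := by
  rw [Matrix.mul_apply, Finset.sum_eq_single ⟨w'.1.map flipL, hF _ w'.2⟩]
  · unfold DZ_J; rw [if_pos rfl, mul_one]
  · intro b _ hb
    unfold DZ_J
    rw [if_neg, mul_zero]
    intro h; exact hb (Subtype.ext h)
  · intro h; exact absurd (mem_univ _) h

theorem DZ_J_mul {F : Finset (List Lab)} (hF : ∀ w ∈ F, w.map flipL ∈ F) (M : Matrix F F K)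
    (w w' : F) : (DZ_J K F * M) w w' = M ⟨w.1.map flipL, hF _ w.2⟩ w' := by
  rw [Matrix.mul_apply, Finset.sum_eq_single ⟨w.1.map flipL, hF _ w.2⟩]
  · unfold DZ_J; rw [if_pos (DZ_map_map _).symm, one_mul]
  · intro b _ hb
    unfold DZ_J
    rw [if_neg, zero_mul]
    intro h; apply hb
    apply Subtype.ext
    show b.1 = w.1.map flipL
    rw [h, DZ_map_map]
  · intro h; exact absurd (mem_univ _) h

theorem DZ_J_zero {F : Finset (List Lab)} (hF : ∀ w ∈ F, w.map flipL ∈ F) (v : K) (m : ℕ) :
    DZ_J K F * matF F (opQ 1 v m 0) = - (matF F (opQ 1 v m 0) * DZ_J K F) := by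
  ext w w'
  rw [Matrix.neg_apply, DZ_mul_J hF, DZ_J_mul hF]
  unfold matF
  show Xop (xQ 1 v m) 0 (Finsupp.single w'.1 1) (w.1.map flipL) =
    - Xop (xQ 1 v m) 0 (Finsupp.single (w'.1.map flipL) 1) w.1
  rw [DZ_Xop (DZ_xQ v m), neg_neg]

theorem DZ_J_succ {F : Finset (List Lab)} (hF : ∀ w ∈ F, w.map flipL ∈ F) (v : K) (m i : ℕ) :
    DZ_J K F * matF F (opQ 1 v m (i + 1)) = matF F (opQ 1 v m (i + 1)) * DZ_J K F := by
  ext w w'
  rw [DZ_mul_J hF, DZ_J_mul hF]
  unfold matF
  show Top v (xQ 1 v m) i (Finsupp.single w'.1 1) (w.1.map flipL) =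
    Top v (xQ 1 v m) i (Finsupp.single (w'.1.map flipL) 1) w.1
  rw [DZ_Top (DZ_xQ v m)]

theorem DZ_trJ {n : ℕ} {S S' : St} (hF : ∀ w ∈ paths n S S', w.map flipL ∈ paths n S S')
    (φ : Module.End K (List Lab →₀ K)) :
    trJ n S S' φ = Matrix.trace (matF (paths n S S') φ * DZ_J K (paths n S S')) := by
  unfold trJ Matrix.trace
  rw [← Finset.sum_coe_sort]
  apply Finset.sum_congr rfl
  intro w _
  rw [Matrix.diag_apply, DZ_mul_J hF]
  rfl

end main

/-- letters `0, 1, …, b - 1` -/
theorem DZ_anti {R : Type*} [Ring R] {t : ℕ → R} {J : R} (h0 : J * t 0 = - (t 0 * J))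
    (h1 : ∀ i, J * t (i + 1) = t (i + 1) * J) (b : ℕ) (hb : 1 ≤ b) :
    J * ((List.range b).map t).prod = - (((List.range b).map t).prod * J) ∧
      J * ((List.range b).reverse.map t).prod = - (((List.range b).reverse.map t).prod * J) := by
  induction b, hb using Nat.le_induction with
  | base => simp [h0]
  | succ b hb ih =>
    obtain ⟨b, rfl⟩ : ∃ c, b = c + 1 := ⟨b - 1, by omega⟩
    obtain ⟨i1, i2⟩ := ih
    rw [List.range_succ, List.map_append, List.prod_append, List.reverse_append,
      List.reverse_singleton, List.singleton_append, List.map_cons, List.prod_cons]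
    simp only [List.map_cons, List.map_nil, List.prod_cons, List.prod_nil, mul_one]
    constructor
    · rw [← mul_assoc, i1, neg_mul, mul_assoc, h1, mul_assoc]
    · rw [← mul_assoc, h1, mul_assoc, i2, mul_neg, mul_assoc]

theorem DZ : DZ_stmt := by
  intro K _ v hv n β α hT hβ S hS
  obtain ⟨hβ1, -, hα1, hsum⟩ := hT
  obtain ⟨b, l, rfl⟩ : ∃ b l, β = b :: l := by
    cases β with
    | nil => exact absurd rfl hβ
    | cons b l => exact ⟨b, l, rfl⟩
  have hg : GenQ (1 : K) v := GenQ_one hv
  have hb : 1 ≤ b := hβ1 b (by simp)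
  rw [List.sum_cons] at hsum
  have hF : ∀ w ∈ paths n (vac n) S, w.map flipL ∈ paths n (vac n) S := by
    intro w hw
    have := DZ_flip_paths hw
    rwa [DZ_flip_vac, hS] at this
  set F := paths n (vac n) S with hFdef
  set t : ℕ → Matrix F F K := fun i => matF F (opQ 1 v n i) with ht
  have hrel : DZ_Br n t := DZ_rel hg n n S
  have hst : ∀ i, Stab F (opQ 1 v n i) := fun i => Stab_opQ hg n n (vac n) S i
  have hmat : ∀ w : List ℕ, matF F (opWQ 1 v n w) = (w.map t).prod := by
    intro w
    exact (matF_prod (opQ 1 v n) w fun i _ => hst i).2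
  have hanti := DZ_anti (t := t) (J := DZ_J K F) (DZ_J_zero hF v n) (fun i => DZ_J_succ hF v n i) b hb
  have hblock : blockWord 0 b = List.range b := by
    unfold blockWord
    obtain ⟨c, rfl⟩ : ∃ c, b = c + 1 := ⟨b - 1, by omega⟩
    simp [List.range_eq_range', List.range'_succ]
  set rest := stdWord b l ++ posWord (b + l.sum) α with hrest
  have hword : word2 (b :: l) α = List.range b ++ rest := by
    unfold word2
    rw [stdWord, hblock, List.sum_cons, zero_add, List.append_assoc]
  have hcomm : ∀ i < b, Commute (t i) (rest.map t).prod ∧ Commute (t i) (rest.reverse.map t).prod := by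
    intro i hi
    obtain ⟨h1, h2⟩ := DZ_std hrel l (fun a ha => hβ1 a (List.mem_cons_of_mem _ ha)) b hi (by omega)
    obtain ⟨h3, h4⟩ := DZ_pos hrel α hα1 (b + l.sum) (by omega : i < b + l.sum) (by omega)
    constructor
    · rw [hrest, List.map_append, List.prod_append]; exact h1.mul_right h3
    · rw [hrest, List.reverse_append, List.map_append, List.prod_append]; exact h4.mul_right h2
  have hcomm' : ∀ (w : List ℕ) (D : Matrix F F K), (∀ i ∈ w, i < b) → (∀ i < b, Commute (t i) D) →
      Commute (w.map t).prod D := by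
    intro w D hw hD
    induction w with
    | nil => simp
    | cons i w ih =>
      rw [List.map_cons, List.prod_cons]
      exact (hD i (hw i (by simp))).mul_left (ih fun j hj => hw j (List.mem_cons_of_mem _ hj))
  constructor
  · rw [DZ_trJ hF, hmat, hword, List.map_append, List.prod_append]
    set C := ((List.range b).map t).prod
    set D := (rest.map t).prod
    have hCD : C * D = D * C := hcomm' _ D (fun i hi => List.mem_range.1 hi) fun i hi => (hcomm i hi).1
    have hJC : DZ_J K F * C = - (C * DZ_J K F) := hanti.1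
    have key : Matrix.trace (C * D * DZ_J K F) = - Matrix.trace (C * D * DZ_J K F) := by
      calc Matrix.trace (C * D * DZ_J K F) = Matrix.trace (D * DZ_J K F * C) := by
            rw [mul_assoc C, Matrix.trace_mul_comm]
        _ = Matrix.trace (-(D * C * DZ_J K F)) := by
            rw [mul_assoc D, hJC, mul_neg, mul_assoc D]
        _ = _ := by rw [Matrix.trace_neg, hCD]
    rw [two_mul]
    nth_rewrite 1 [key]
    exact neg_add_cancel _
  · rw [DZ_trJ hF, hmat, hword, List.reverse_append, List.map_append, List.prod_append]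
    set C := ((List.range b).reverse.map t).prod
    set D := (rest.reverse.map t).prod
    have hCD : C * D = D * C := hcomm' _ D (fun i hi => List.mem_range.1 (List.mem_reverse.1 hi))
      fun i hi => (hcomm i hi).2
    have hJC : DZ_J K F * C = - (C * DZ_J K F) := hanti.2
    have key : Matrix.trace (D * C * DZ_J K F) = - Matrix.trace (D * C * DZ_J K F) := by
      calc Matrix.trace (D * C * DZ_J K F) = Matrix.trace (-(D * DZ_J K F * C)) := by
            rw [mul_assoc D, mul_assoc D, hJC, mul_neg, neg_neg]
        _ = - Matrix.trace (C * D * DZ_J K F) := by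
            rw [Matrix.trace_neg, Matrix.trace_mul_comm, mul_assoc C]
        _ = _ := by rw [hCD]
    rw [two_mul]
    nth_rewrite 1 [key]
    exact neg_add_cancel _

end Pool.Agent.helper27.PC
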